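import Pool.Agent.helper54.XP.SpecL

set_option autoImplicit false

open Complex Metric Set Filter Topology MeasureTheory XP
open V3S (UF)

noncomputable section

namespace XPL

theorem EXB_real (s g B : ℝ) (hs : 0 < s) (_hg : 0 ≤ g) (h1 : g ^ 2 * B ≤ 2) (h2 : 0.8 ≤ B * s ^ 2) :
    g ≤ 1.6 * s := by
  have hB : 0 < B := by
    by_contra h
    push Not at h
    have : B * s ^ 2 ≤ 0 := mul_nonpos_of_nonpos_of_nonneg h (sq_nonneg _)
    norm_num at h2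
    linarith
  by_contra h
  push Not at h
  have h3 : (1.6 * s) ^ 2 < g ^ 2 := by
    apply pow_lt_pow_left₀ h (by positivity)
    norm_num
  have h4 : (1.6 * s) ^ 2 * B < g ^ 2 * B := mul_lt_mul_of_pos_right h3 hB
  have h5 : (1.6 * s) ^ 2 * B = 2.56 * (B * s ^ 2) := by ring
  have h6 : (2.56 : ℝ) * 0.8 ≤ 2.56 * (B * s ^ 2) := mul_le_mul_of_nonneg_left h2 (by norm_num)
  norm_num at h6 h5
  linarith

theorem EXB_cnt (k N : ℕ) (_hk : 0 < k) (T : Finset ℕ) (hT : ∀ q ∈ T, q < N * k) :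
    T.card ≤ N * (T.image (fun q : ℕ => -(q : ZMod k))).card := by
  classical
  refine Finset.card_le_mul_card_image T N ?_
  intro a _
  have h1 : (T.filter (fun q : ℕ => -(q : ZMod k) = a)).card ≤ (Finset.range N).card := by
    refine Finset.card_le_card_of_injOn (fun q => q / k) ?_ ?_
    · intro q hq
      have hq' := Finset.mem_filter.1 (Finset.mem_coe.1 hq)
      rw [Finset.mem_coe, Finset.mem_range]
      exact Nat.div_lt_of_lt_mul (by rw [mul_comm]; exact hT q hq'.1)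
    · intro q hq q' hq' he
      have h2 := (Finset.mem_filter.1 (Finset.mem_coe.1 hq)).2
      have h3 := (Finset.mem_filter.1 (Finset.mem_coe.1 hq')).2
      have h4 : (q : ZMod k) = (q' : ZMod k) := neg_injective (h2.trans h3.symm)
      rw [ZMod.natCast_eq_natCast_iff'] at h4
      have he' : q / k = q' / k := he
      rw [← Nat.div_add_mod q k, ← Nat.div_add_mod q' k, he', h4]
  rwa [Finset.card_range] at h1

theorem EXB (hCAF : CAF_stmt) (hBA1 : BA1_stmt) (hBAD : BAD_stmt) (hADH : ADH_stmt)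
    (hNPK : V3.NPK_stmt) (hLV : XPS.LVX_stmt) : EXB_stmt := by
  classical
  intro C hC
  set R : ℝ := (8 + 1.6 * C) * C + 1 with hR
  have hC0 : 0 < C := by linarith
  have hR0 : 0 < R := by rw [hR]; positivity
  refine ⟨⌈(1 + 2 * R / 1) ^ 2⌉₊, ?_⟩
  intro n C₀ A D hD y h r χ G hh hh1 hr hnat hχ0 haff hsg hlev _hG0 hsum hkc
  obtain ⟨hsg0, -, hxz, hzx, -⟩ := hBA1 n C₀ A D hD
  obtain ⟨hs0, -, -, -, hBB, -⟩ := hCAF D.PP D.H χ (16 * h) (by positivity) hnat haff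
  obtain ⟨-, hsep, -⟩ := hBAD n C₀ A D hD
  obtain ⟨hAD, -⟩ := hADH n C₀ A D hD
  have hs : 0 < ‖deriv χ 0‖ := norm_pos_iff.2 hs0
  have hsgp : 0 < ‖D.sg‖ := norm_pos_iff.2 hsg0
  obtain ⟨-, -, -, htau, -⟩ := hLV D.f D.PP D.H G (ball 0 r) D.K hAD isOpen_ball hlev
  have hlev0 : ∀ q, 0 ≤ XPS.lev D.H G q 0 := fun q => norm_nonneg _
  have hkpos : 0 < D.k := by
    have := hD.hk
    omega
  -- the bound for each label
  have key : ∀ q : ℕ, 1 ≤ q → q < D.K → ‖G q 0 - χ 0‖ < 8 * h * ‖deriv χ 0‖ →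
      ‖D.p (-(q : ZMod D.k)) - y‖ < R := by
    intro q hq1 hqk hq
    have h1 : ‖XPS.tau D.H G q 0 - 1‖ ≤ 1 := by
      refine (htau q hqk.le 0 (mem_ball_self hr)).trans ?_
      refine le_trans ?_ hsum
      refine Finset.sum_le_sum_of_subset_of_nonneg ?_ (fun i _ _ => hlev0 i)
      exact Finset.Icc_subset_Icc_right hqk.le
    have h2 : ‖XPS.tau D.H G q 0‖ ≤ 2 := by
      calc ‖XPS.tau D.H G q 0‖ = ‖(XPS.tau D.H G q 0 - 1) + 1‖ := by rw [sub_add_cancel]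
        _ ≤ ‖XPS.tau D.H G q 0 - 1‖ + ‖(1 : ℂ)‖ := norm_add_le _ _
        _ ≤ 2 := by rw [norm_one]; linarith
    have h3 : ‖deriv (G q) 0‖ ^ 2 * ‖D.H (G q 0)‖ ≤ 2 := by
      have h4 : XPS.tau D.H G q 0 = deriv (G q) 0 ^ 2 * D.H (G q 0) := rfl
      rw [h4, norm_mul, norm_pow] at h2
      exact h2
    have h5 : G q 0 ∈ ball (χ 0) (9 / 10 * (16 * h) * ‖deriv χ 0‖) := by
      rw [mem_ball, dist_eq_norm]
      refine hq.trans_le ?_
      refine mul_le_mul_of_nonneg_right ?_ hs.le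
      linarith
    have h6 := (hBB (G q 0) h5).1
    have h7 : ‖deriv (G q) 0‖ ≤ 1.6 * ‖deriv χ 0‖ :=
      EXB_real _ _ _ hs (norm_nonneg _) h3 h6
    have h8 : ‖G q 0 - D.b (-(q : ZMod D.k))‖ ≤ C * (1.6 * ‖deriv χ 0‖) :=
      (hkc q hq1 hqk.le).trans (mul_le_mul_of_nonneg_left h7 hC0.le)
    have h9 : ‖D.b (-(q : ZMod D.k)) - χ 0‖ ≤ (8 + 1.6 * C) * ‖deriv χ 0‖ := by
      calc ‖D.b (-(q : ZMod D.k)) - χ 0‖
          = ‖(G q 0 - χ 0) - (G q 0 - D.b (-(q : ZMod D.k)))‖ := by congr 1; ring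
        _ ≤ ‖G q 0 - χ 0‖ + ‖G q 0 - D.b (-(q : ZMod D.k))‖ := norm_sub_le _ _
        _ ≤ 8 * h * ‖deriv χ 0‖ + C * (1.6 * ‖deriv χ 0‖) := add_le_add hq.le h8
        _ ≤ 8 * 1 * ‖deriv χ 0‖ + C * (1.6 * ‖deriv χ 0‖) := by
            have : 8 * h * ‖deriv χ 0‖ ≤ 8 * 1 * ‖deriv χ 0‖ :=
              mul_le_mul_of_nonneg_right (by linarith) hs.le
            linarith
        _ = (8 + 1.6 * C) * ‖deriv χ 0‖ := by ring
    have h10 : D.p (-(q : ZMod D.k)) - y = (D.b (-(q : ZMod D.k)) - χ 0) / D.sg := by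
      have h11 : y = D.xx (χ 0) := by rw [hχ0, hxz]
      rw [h11]
      simp only [Dat.p, Dat.xx]
      rw [← sub_div]
      congr 1
      ring
    have h12 : ‖D.p (-(q : ZMod D.k)) - y‖ ≤ (8 + 1.6 * C) * C := by
      rw [h10, norm_div, div_le_iff₀ hsgp]
      calc ‖D.b (-(q : ZMod D.k)) - χ 0‖ ≤ (8 + 1.6 * C) * ‖deriv χ 0‖ := h9
        _ ≤ (8 + 1.6 * C) * (C * ‖D.sg‖) := mul_le_mul_of_nonneg_left hsg (by positivity)
        _ = (8 + 1.6 * C) * C * ‖D.sg‖ := by ring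
    rw [hR]
    linarith
  let T : Finset ℕ := (Finset.range D.K).filter
    (fun q => 1 ≤ q ∧ q < D.K ∧ ‖G q 0 - χ 0‖ < 8 * h * ‖deriv χ 0‖)
  have hT : {q : ℕ | 1 ≤ q ∧ q < D.K ∧ ‖G q 0 - χ 0‖ < 8 * h * ‖deriv χ 0‖} = (T : Set ℕ) := by
    ext q
    simp only [T, Finset.coe_filter, Finset.mem_range]
    constructor
    · intro hq
      exact ⟨hq.2.1, hq⟩
    · intro hq
      exact hq.2
  rw [hT, Set.ncard_coe_finset]
  have hmem : ∀ q ∈ T, 1 ≤ q ∧ q < D.K ∧ ‖G q 0 - χ 0‖ < 8 * h * ‖deriv χ 0‖ := by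
    intro q hq
    exact (Finset.mem_filter.1 hq).2
  have hcard := EXB_cnt D.k D.N hkpos T (fun q hq => (hmem q hq).2.1)
  have hN := hNPK (ZMod D.k) (fun l => D.p l - y) (T.image (fun q : ℕ => -(q : ZMod D.k))) 1 R
    one_pos hR0 ?_ ?_
  · refine hcard.trans (Nat.mul_le_mul_left _ ?_)
    have h1 : ((T.image (fun q : ℕ => -(q : ZMod D.k))).card : ℝ) ≤
        (⌈(1 + 2 * R / 1) ^ 2⌉₊ : ℝ) := hN.trans (Nat.le_ceil _)
    exact_mod_cast h1
  · intro i _ l _ hil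
    have h1 := hsep i l hil
    have h2 : (D.p i - y) - (D.p l - y) = D.p i - D.p l := by ring
    simp only [h2]
    exact h1
  · intro i hi
    obtain ⟨q, hq, rfl⟩ := Finset.mem_image.1 hi
    have h1 := hmem q hq
    exact key q h1.1 h1.2.1 h1.2.2

end XPL
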