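import Pool.Agent.helper54.XP.SpecL

set_option autoImplicit false

open Complex Metric Set Filter Topology MeasureTheory XP
open V3S (UF)

noncomputable section

namespace XPL

theorem LPB (hLPI : LPI_stmt) (hADH : ADH_stmt) (hTDE : V3.TDE_stmt) : LPB_stmt := by
  intro n C D hS hL
  obtain ⟨A, hA, hgood⟩ := hS.good
  obtain ⟨-, -, hfar, hclosed, -, -, -⟩ := hLPI n C D hS
  have hO : IsOpen (Pin D)ᶜ := hclosed.isOpen_compl
  have hreg : ∀ x, x ∉ Pin D → ∃ r > (0 : ℝ), ∀ᶠ m in UF, DifferentiableOn ℂ (D m).B (ball x r) ∧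
      ∀ y ∈ ball x r, (D m).zz y ∉ (D m).PP := by
    intro x hx
    obtain ⟨r, hr, hev⟩ := hfar x hx
    refine ⟨r, hr, ?_⟩
    have hAev : ∀ᶠ m in UF, ‖x‖ + r ≤ A m := V3S.UF_le (hA.eventually_ge_atTop (‖x‖ + r))
    filter_upwards [hev, hAev] with m hm hAm
    obtain ⟨-, -, hB, -, hzz, -⟩ := hADH n C (A m) (D m) (hgood m)
    have h1 : ∀ y ∈ ball x r, (D m).zz y ∉ (D m).PP := by
      intro y hy hP
      rw [mem_ball, dist_eq_norm] at hy
      have h2 : ‖y‖ < A m := by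
        have h3 : ‖y‖ ≤ ‖y - x‖ + ‖x‖ := by
          have := norm_add_le (y - x) x
          rwa [sub_add_cancel] at this
        linarith
      obtain ⟨l, hl⟩ := ((hzz y h2).2.2).1 hP
      rw [hl] at hy
      exact absurd (hm l) (not_le.2 hy)
    exact ⟨fun y hy => (hB y (h1 y hy)).differentiableWithinAt, h1⟩
  refine ⟨hreg, ?_⟩
  intro K hK hKO
  have h6 : ∀ x ∈ (Pin D)ᶜ, V3.EvHol (hyperfilter ℕ) (fun m => (D m).B) x := by
    intro x hx
    obtain ⟨r, hr, hev⟩ := hreg x hx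
    refine ⟨r, hr, ?_⟩
    have hev2 : ∀ᶠ m in ((hyperfilter ℕ : Ultrafilter ℕ) : Filter ℕ),
        DifferentiableOn ℂ (D m).B (ball x r) := by
      have h7 : ∀ᶠ m in UF, DifferentiableOn ℂ (D m).B (ball x r) := hev.mono fun m hm => hm.1
      exact h7
    exact hev2
  have hconv : TendstoLocallyUniformlyOn (fun m => (D m).B) (Bin D) (hyperfilter ℕ : Ultrafilter ℕ)
      (Pin D)ᶜ := by
    refine (tendstoLocallyUniformlyOn_iff_forall_isCompact hO).2 ?_
    intro K' hK'O hK'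
    exact hL.conv K' hK' hK'O
  have h8 := (hTDE (hyperfilter ℕ) (fun m => (D m).B) (Bin D) (Pin D)ᶜ hO h6 hconv).2.1
  exact (tendstoLocallyUniformlyOn_iff_forall_isCompact hO).1 h8 K hKO hK

end XPL
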