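import Pool.Agent.helper74.XP.SpecP

set_option autoImplicit false

open Complex Metric Set Filter Topology MeasureTheory MPS PPS Pool.Agent.helper16.Multibrot

noncomputable section

namespace XPP

theorem NET_bd (f : Polynomial ℂ) (h2 : 2 ≤ f.natDegree) : ∃ a : ℝ, 0 < a ∧ Bd f.natDegree a f := by
  have hf0 : f ≠ 0 := by
    rintro rfl
    simp at h2
  have hl : 0 < ‖f.leadingCoeff‖ := norm_pos_iff.2 (Polynomial.leadingCoeff_ne_zero.2 hf0)
  set S : ℝ := ∑ i ∈ Finset.range (f.natDegree + 1), ‖f.coeff i‖ with hS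
  have hS0 : 0 ≤ S := Finset.sum_nonneg fun i _ => norm_nonneg _
  refine ⟨S + 1 / ‖f.leadingCoeff‖, by positivity, rfl, ?_, ?_⟩
  · intro i
    by_cases hi : i ∈ Finset.range (f.natDegree + 1)
    · have h1 : ‖f.coeff i‖ ≤ S :=
        Finset.single_le_sum (f := fun i => ‖f.coeff i‖) (fun i _ => norm_nonneg _) hi
      have h3 : 0 < 1 / ‖f.leadingCoeff‖ := by positivity
      linarith
    · have h1 : f.coeff i = 0 := by
        apply Polynomial.coeff_eq_zero_of_natDegree_lt
        simpa [Finset.mem_range] using hi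
      rw [h1, norm_zero]
      positivity
  · rw [add_mul, one_div, inv_mul_cancel₀ hl.ne']
    have : 0 ≤ S * ‖f.leadingCoeff‖ := by positivity
    linarith

theorem NET (hRAD : PPS.RAD_stmt) : NET_stmt := by
  intro f s h2 hs
  obtain ⟨a, ha, hbd⟩ := NET_bd f h2
  obtain ⟨A, -, hA⟩ := hRAD f.natDegree a h2 ha
  obtain ⟨-, -, hA3⟩ := hA f hbd
  set S : Set ℂ := {z | ∃ k, Rep f k z} with hS
  have hsub : S ⊆ closedBall (0 : ℂ) A := by
    rintro z ⟨k, ⟨hk, hm⟩, -⟩
    rw [mem_closedBall_zero_iff]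
    have h1 : (fun w : ℂ => f.eval w)^[k] z = z := by
      have := Function.isPeriodicPt_minimalPeriod (fun w : ℂ => f.eval w) z
      rw [hm] at this
      exact this
    exact (hA3 k z hk h1).le
  have htb : TotallyBounded S := (isCompact_closedBall (0 : ℂ) A).totallyBounded.subset hsub
  obtain ⟨t, htS, htf, hcov⟩ := Metric.finite_approx_of_totallyBounded htb s hs
  refine ⟨htf.toFinset, ?_, ?_⟩
  · intro w hw
    exact htS (htf.mem_toFinset.1 hw)
  · intro k z hz
    have hzS : z ∈ S := ⟨k, hz⟩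
    have := hcov hzS
    simp only [mem_iUnion, exists_prop] at this
    obtain ⟨w, hw, hzw⟩ := this
    refine ⟨w, htf.mem_toFinset.2 hw, ?_⟩
    rw [mem_ball, dist_eq_norm, norm_sub_rev] at hzw
    exact hzw

end XPP
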